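import Pool.Agent.Lib.MP_739abe_an.BN.Main

/-!
MP_739abe_an: the exceptional sets of boundary absolute continuity.

For every `n ≥ 3`, a Borel subset `E` of the unit sphere of `n`-dimensional Euclidean space is mapped
onto a set of `(n-1)`-dimensional Hausdorff measure zero by all quasiconformal maps of the ball onto
Jordan domains with finite `(n-1)`-dimensional boundary measure if and only if `E` is countable.
The maps for uncountable `E` have one and the same dilatation for all `n` and all `E`, and all of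
the boundary measure but an arbitrarily small proportion lies on `f(E)`.
-/

namespace Pool.Agent.Results.MP_739abe_an.ExceptionalSets

open MeasureTheory MeasureTheory.Measure Topology Filter Set Metric
open scoped ENNReal NNReal
open Pool.Agent.Lib.MP739abe.BN

section curve

variable {n : ℕ}

/-- a curve in the sphere -/
noncomputable def gam (i j : Fin n) (t : ℝ) : EuclideanSpace ℝ (Fin n) :=
  Real.cos t • EuclideanSpace.single i (1 : ℝ) + Real.sin t • EuclideanSpace.single j (1 : ℝ)

lemma gam_lip (i j : Fin n) (s t : ℝ) : dist (gam i j s) (gam i j t) ≤ 2 * dist s t := by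
  rw [dist_eq_norm, Real.dist_eq]
  have e : gam i j s - gam i j t = (Real.cos s - Real.cos t) • EuclideanSpace.single i (1 : ℝ) +
      (Real.sin s - Real.sin t) • EuclideanSpace.single j (1 : ℝ) := by
    unfold gam; module
  rw [e]
  refine (norm_add_le _ _).trans ?_
  rw [norm_smul, norm_smul, PiLp.norm_single, PiLp.norm_single, norm_one, mul_one, mul_one,
    Real.norm_eq_abs, Real.norm_eq_abs]
  have h1 : |Real.cos s - Real.cos t| ≤ |s - t| := Real.abs_cos_sub_cos_le _ _
  have h2 : |Real.sin s - Real.sin t| ≤ |s - t| := Real.abs_sin_sub_sin_le _ _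
  linarith

lemma gam_cont (i j : Fin n) : Continuous (gam i j) :=
  (LipschitzWith.of_dist_le' (gam_lip i j)).continuous

lemma gam_norm {i j : Fin n} (hij : i ≠ j) (t : ℝ) : ‖gam i j t‖ = 1 := by
  have h : ‖gam i j t‖ ^ 2 = 1 := by
    unfold gam
    rw [norm_add_sq_real, norm_smul, norm_smul, PiLp.norm_single, PiLp.norm_single,
      real_inner_smul_left, real_inner_smul_right, EuclideanSpace.inner_single_left]
    simp [hij, Real.cos_sq_add_sin_sq]
  have h2 := norm_nonneg (gam i j t)
  nlinarith

lemma gam_inj {i j : Fin n} (hij : i ≠ j) : InjOn (gam i j) (Icc 0 1) := by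
  intro s hs t ht h
  have h1 : (gam i j s) i = (gam i j t) i := by rw [h]
  have h2 : ∀ t, (gam i j t) i = Real.cos t := by
    intro t
    unfold gam
    simp [hij]
  rw [h2, h2] at h1
  have hpi := Real.pi_gt_three
  exact Real.injOn_cos ⟨hs.1, by linarith [hs.2]⟩ ⟨ht.1, by linarith [ht.2]⟩ h1

/-- a null set in the sphere which is compact and uncountable -/
lemma exists_null (n : ℕ) (hn : 3 ≤ n) :
    ∃ E ⊆ sphere (0 : EuclideanSpace ℝ (Fin n)) 1, MeasurableSet E ∧ ¬ E.Countable ∧
      μH[(n : ℝ) - 1] E = 0 := by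
  have hij : (⟨0, by omega⟩ : Fin n) ≠ ⟨1, by omega⟩ := by simp
  set i : Fin n := ⟨0, by omega⟩
  set j : Fin n := ⟨1, by omega⟩
  refine ⟨gam i j '' Icc 0 1, ?_, ?_, ?_, ?_⟩
  · rintro _ ⟨t, _, rfl⟩
    rw [mem_sphere_zero_iff_norm]
    exact gam_norm hij t
  · exact (isCompact_Icc.image (gam_cont i j)).isClosed.measurableSet
  · intro h
    have h1 := countable_of_injective_of_countable_image (gam_inj hij) h
    have h2 : (volume : Measure ℝ) (Icc 0 1) = 0 := h1.measure_zero _
    rw [Real.volume_Icc] at h2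
    norm_num at h2
  · have h1 : dimH (gam i j '' Icc 0 1) ≤ dimH (Icc (0 : ℝ) 1) :=
      (LipschitzWith.of_dist_le' (gam_lip i j)).dimH_image_le _
    have h2 : dimH (Icc (0 : ℝ) 1) ≤ 1 := by
      have := dimH_mono (subset_univ (Icc (0 : ℝ) 1))
      rwa [Real.dimH_univ] at this
    have h3 : dimH (gam i j '' Icc 0 1) < (((n - 1 : ℕ) : ℝ≥0) : ℝ≥0∞) := by
      refine (h1.trans h2).trans_lt ?_
      have : (1 : ℝ≥0) < ((n - 1 : ℕ) : ℝ≥0) := by
        have : 1 < n - 1 := by omega
        exact_mod_cast this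
      exact_mod_cast this
    have h4 := hausdorffMeasure_of_dimH_lt h3
    have e : (((n - 1 : ℕ) : ℝ≥0) : ℝ) = (n : ℝ) - 1 := by
      rw [NNReal.coe_natCast, Nat.cast_sub (by omega)]
      simp
    rwa [e] at h4

end curve

/-- **The exceptional sets of boundary absolute continuity.**  There is one `K` such that for every
`n ≥ 3`: first, the negated form of Q1, a Jordan domain `D` with finite boundary measure, a
quasiconformal parametrization `f` and a null set `E` of the sphere with `f(E)` not null; second, a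
Borel set `E` of the sphere is mapped onto a null set by all such maps if and only if it is
countable; and for uncountable `E` the dilatation is `K` and `f(E)` carries all of the boundary
measure but an arbitrarily small proportion. -/
theorem result : ∃ K : ℝ, ∀ n : ℕ, 3 ≤ n →
    (∃ (D : Set (EuclideanSpace ℝ (Fin n)))
        (f : EuclideanSpace ℝ (Fin n) → EuclideanSpace ℝ (Fin n)),
        IsJordanDomain D ∧ μH[(n : ℝ) - 1] (frontier D) < ⊤ ∧
        IsQuasiconformalParametrization K f D ∧
        ∃ E ⊆ sphere (0 : EuclideanSpace ℝ (Fin n)) 1,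
          μH[(n : ℝ) - 1] E = 0 ∧ 0 < μH[(n : ℝ) - 1] (f '' E)) ∧
    ∀ E ⊆ sphere (0 : EuclideanSpace ℝ (Fin n)) 1, MeasurableSet E →
      (E.Countable ↔ ∀ (K' : ℝ) (D : Set (EuclideanSpace ℝ (Fin n)))
        (f : EuclideanSpace ℝ (Fin n) → EuclideanSpace ℝ (Fin n)),
        IsJordanDomain D → μH[(n : ℝ) - 1] (frontier D) < ⊤ →
        IsQuasiconformalParametrization K' f D → μH[(n : ℝ) - 1] (f '' E) = 0) ∧
      (¬ E.Countable → ∀ ε > 0, ∃ (D : Set (EuclideanSpace ℝ (Fin n)))
        (f : EuclideanSpace ℝ (Fin n) → EuclideanSpace ℝ (Fin n)),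
        IsJordanDomain D ∧ μH[(n : ℝ) - 1] (frontier D) < ⊤ ∧
        IsQuasiconformalParametrization K f D ∧ LocallyScaledBiLipschitz K f (ball 0 1) ∧
        0 < μH[(n : ℝ) - 1] (f '' E) ∧
        μH[(n : ℝ) - 1] (frontier D \ f '' E) <
          ENNReal.ofReal ε * μH[(n : ℝ) - 1] (f '' E)) := by
  obtain ⟨K, hK⟩ := Pool.Agent.Lib.MP739abe.BN.fin
  refine ⟨K, fun n hn => ⟨?_, ?_⟩⟩
  · obtain ⟨E, hE, hm, hc, h0⟩ := exists_null n hn
    obtain ⟨D, f, h1, h2, h3, h4, h5, h6⟩ := hK n hn E hE hm hc 1 one_pos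
    exact ⟨D, f, h1, h2, h3, E, hE, h0, h5⟩
  · intro E hE hm
    refine ⟨⟨?_, ?_⟩, fun hc ε hε => hK n hn E hE hm hc ε hε⟩
    · intro hc K' D f _ _ _
      have hpos : (0 : ℝ) < (n : ℝ) - 1 := by
        have : (3 : ℝ) ≤ n := by exact_mod_cast hn
        linarith
      have := nullSingletonClass_hausdorff (EuclideanSpace ℝ (Fin n)) hpos
      exact (hc.image f).measure_zero _
    · intro h
      by_contra hc
      obtain ⟨D, f, h1, h2, h3, h4, h5, h6⟩ := hK n hn E hE hm hc 1 one_pos
      exact h5.ne' (h K D f h1 h2 h3)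

end Pool.Agent.Results.MP_739abe_an.ExceptionalSets
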